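import Pool.Agent.Helper5.FRC.Defs

/-!
# Project FRC (MP_79b960_co), packet CMP: circuits and components
-/

set_option autoImplicit false

namespace Pool.Agent.Helper78.FRC.CMP

open Finset
open Pool.Agent.Helper5.FRC Pool.Agent.Helper55.FR

/-- a finite set closed under `n` is closed under the inverse of `n` -/
theorem invb {V : Type} [DecidableEq V] {n : Equiv.Perm V} {C : Finset V} (h : Inv n C) {y : V}
    (hy : n y ∈ C) : y ∈ C := by
  have h1 : C.image n = C := by
    refine Finset.eq_of_subset_of_card_le ?_ ?_
    · intro x hx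
      obtain ⟨z, hz, rfl⟩ := Finset.mem_image.1 hx
      exact h z hz
    · rw [Finset.card_image_of_injective _ n.injective]
  rw [← h1] at hy
  obtain ⟨z, hz, hzy⟩ := Finset.mem_image.1 hy
  rw [← n.injective hzy]
  exact hz

theorem t : CmpStmt := by
  intro V _ _ G _ M n m hc hG hM C hC
  classical
  have ha : ∀ x y, (G.deleteEdges M.edgeSet).Adj x y ↔ (y = n x ∨ x = n y) := by
    intro x y
    rw [SimpleGraph.deleteEdges_adj, hG, SimpleGraph.Subgraph.mem_edgeSet, hM]
    constructor
    · rintro ⟨h | h | h, h'⟩
      · exact Or.inl h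
      · exact Or.inr h
      · exact absurd h h'
    · rintro (h | h)
      · exact ⟨Or.inl h, fun h' => hc.nm x (by rw [← h, ← h'])⟩
      · refine ⟨Or.inr (Or.inl h), fun h' => hc.nm y ?_⟩
        rw [← h, h', hc.mm]
  obtain ⟨⟨p, hp⟩, hinv, hmin⟩ := hC
  refine ⟨(G.deleteEdges M.edgeSet).connectedComponentMk p, ?_⟩
  ext x
  rw [SimpleGraph.ConnectedComponent.mem_supp_iff, SimpleGraph.ConnectedComponent.eq, Finset.mem_coe]
  constructor
  · intro h
    obtain ⟨w⟩ := h.symm
    have key : ∀ (u v : V), (G.deleteEdges M.edgeSet).Walk u v → u ∈ C → v ∈ C := by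
      intro u v w
      induction w with
      | nil => exact fun h => h
      | cons hadj _ ih =>
        intro hu
        apply ih
        rcases (ha _ _).1 hadj with h | h
        · rw [h]
          exact hinv _ hu
        · rw [h] at hu
          exact invb hinv hu
    exact key _ _ w hp
  · intro hx
    have h1 : C.filter (fun x => (G.deleteEdges M.edgeSet).Reachable x p) = C := by
      refine hmin _ (Finset.filter_subset _ _)
        ⟨p, Finset.mem_filter.2 ⟨hp, SimpleGraph.Reachable.refl p⟩⟩ ?_
      intro y hy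
      obtain ⟨hy1, hy2⟩ := Finset.mem_filter.1 hy
      refine Finset.mem_filter.2 ⟨hinv y hy1, ?_⟩
      have h2 : (G.deleteEdges M.edgeSet).Adj (n y) y := (ha _ _).2 (Or.inr rfl)
      exact h2.reachable.trans hy2
    rw [← h1] at hx
    exact (Finset.mem_filter.1 hx).2

end Pool.Agent.Helper78.FRC.CMP
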